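import Pool.Agent.Helper70.DK.Defs

/-! # PAIR: two separated pieces which are not distinguished -/

set_option autoImplicit false

namespace Pool.Agent.Helper70.DK

open Finset

theorem pair_cl_cl {k : ℕ} (B s w : ℕ) (z : Fin k → ℤ) : cl B (s + w) z = cl B w (cl B s z) := by
  funext i
  unfold cl
  rw [pow_add, Int.ediv_ediv_of_nonneg (by positivity)]

theorem pair_log_mono {n m : ℕ} (h : n ≤ m) : Real.log (n : ℝ) ≤ Real.log (m : ℝ) := by
  rcases Nat.eq_zero_or_pos n with h0 | h0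
  · rw [h0, Nat.cast_zero, Real.log_zero]
    exact Real.log_natCast_nonneg m
  · exact Real.log_le_log (by exact_mod_cast h0) (by exact_mod_cast h)

theorem pair_mem_fib {Ω β : Type} {S : Finset Ω} {g : Ω → β} {c : β} {x : Ω} :
    x ∈ fib S g c ↔ x ∈ S ∧ g x = c := by
  classical
  unfold fib
  exact Finset.mem_filter

theorem pair_fib_sub {Ω β : Type} (S : Finset Ω) (g : Ω → β) (c : β) : fib S g c ⊆ S :=
  fun _ hx => (pair_mem_fib.1 hx).1

theorem pair_card_sum {Ω β : Type} [DecidableEq β] (S : Finset Ω) (g : Ω → β) :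
    (S.card : ℝ) = ∑ c ∈ S.image g, ((fib S g c).card : ℝ) := by
  classical
  have h1 : S.card = ∑ c ∈ S.image g, (fib S g c).card := by
    rw [Finset.card_eq_sum_card_image g S]
    apply Finset.sum_congr rfl
    intro c _
    congr 1
    ext x
    rw [pair_mem_fib, Finset.mem_filter]
  rw [h1]
  push_cast
  rfl

theorem pair_fib_prod {Ω Ω' β : Type} (S : Finset Ω) (S2 : Finset Ω') (g : Ω → β) (c : β) :
    fib (S ×ˢ S2) (fun x => g x.1) c = (fib S g c) ×ˢ S2 := by
  classical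
  ext x
  rw [pair_mem_fib, Finset.mem_product, Finset.mem_product, pair_mem_fib]
  tauto

theorem pair_two (A : Finset ℤ) (h : ∀ x ∈ A, ∀ y ∈ A, ¬ 2 ≤ |x - y|) : A.card ≤ 2 := by
  classical
  rcases A.eq_empty_or_nonempty with h0 | h0
  · rw [h0]
    simp
  · have h1 : A ⊆ {A.min' h0, A.min' h0 + 1} := by
      intro x hx
      have h2 := A.min'_le x hx
      have h3 := h x hx (A.min' h0) (A.min'_mem h0)
      rw [abs_of_nonneg (by omega)] at h3
      rw [Finset.mem_insert, Finset.mem_singleton]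
      omega
    exact (Finset.card_le_card h1).trans Finset.card_le_two

/-- the box -/
noncomputable def pairBox {k : ℕ} (B w : ℕ) (c : Fin k → ℤ) : Finset (Fin k → ℤ) :=
  Fintype.piFinset fun i => Finset.Ico (c i * (B : ℤ) ^ w) (c i * (B : ℤ) ^ w + (B : ℤ) ^ w)

theorem pair_box_card {k : ℕ} (B w : ℕ) (c : Fin k → ℤ) : (pairBox B w c).card = B ^ (k * w) := by
  unfold pairBox
  rw [Fintype.card_piFinset]
  have h1 : ∀ i : Fin k, (Finset.Ico (c i * (B : ℤ) ^ w) (c i * (B : ℤ) ^ w + (B : ℤ) ^ w)).card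
      = B ^ w := by
    intro i
    rw [Int.card_Ico]
    have h2 : c i * (B : ℤ) ^ w + (B : ℤ) ^ w - c i * (B : ℤ) ^ w = ((B ^ w : ℕ) : ℤ) := by
      push_cast
      ring
    rw [h2, Int.toNat_natCast]
  rw [Finset.prod_congr rfl (fun i _ => h1 i), Finset.prod_const, Finset.card_univ,
    Fintype.card_fin, ← pow_mul, Nat.mul_comm]

theorem pair_box_mem {k : ℕ} {B w : ℕ} (hB : 2 ≤ B) {c e : Fin k → ℤ} (h : cl B w e = c) :
    e ∈ pairBox B w c := by
  unfold pairBox
  rw [Fintype.mem_piFinset]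
  intro i
  have hpos : (0 : ℤ) < (B : ℤ) ^ w := by positivity
  have h1 : e i / (B : ℤ) ^ w = c i := congrFun h i
  rw [Finset.mem_Ico, ← h1]
  have h2 := Int.ediv_mul_le (e i) hpos.ne'
  have h3 := Int.lt_ediv_add_one_mul_self (e i) hpos
  refine ⟨h2, ?_⟩
  linarith [h3, add_mul (e i / (B : ℤ) ^ w) 1 ((B : ℤ) ^ w)]

/-- if all big fibres are close to each other then the entropy is small -/
theorem pair_small (h1 : ST_E1) (h2 : ST_E2) (h3 : ST_E3) {Ω : Type} (Φ : Finset Ω)
    {k : ℕ} (f : Ω → Fin k → ℤ) (F : Finset (Fin k → ℤ)) (N : ℕ) (hN : F.card ≤ N) (hN1 : 1 ≤ N)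
    (hF : ∀ x ∈ Φ, f x ∈ F) (hΦ : Φ.Nonempty) (τ : ℝ) (hτ : τ = 1 / (N * (Real.log N + 1)))
    (hbig : ∀ e e' : Fin k → ℤ, τ * Φ.card ≤ (fib Φ f e).card → τ * Φ.card ≤ (fib Φ f e').card →
      ∀ i, ¬ 2 ≤ |e i - e' i|) :
    ent Φ f ≤ (k + 1) * Real.log 2 + 1 := by
  classical
  have hM : (0 : ℝ) < Φ.card := by exact_mod_cast hΦ.card_pos
  have hlogN : 0 ≤ Real.log N := Real.log_natCast_nonneg N
  have hNpos : (0 : ℝ) < N := by exact_mod_cast hN1
  have hτpos : 0 < τ := by
    rw [hτ]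
    positivity
  set χ : Ω → Bool := fun x => decide (τ * Φ.card ≤ (fib Φ f (f x)).card) with hχ
  -- the big values
  set Bg : Finset (Fin k → ℤ) := F.filter fun e => τ * Φ.card ≤ (fib Φ f e).card with hBg
  have hBgcard : Bg.card ≤ 2 ^ k := by
    have h4 : Bg ⊆ Fintype.piFinset fun i : Fin k => Bg.image fun e => e i := by
      intro e he
      rw [Fintype.mem_piFinset]
      intro i
      exact Finset.mem_image_of_mem (fun e : Fin k → ℤ => e i) he
    refine (Finset.card_le_card h4).trans ?_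
    rw [Fintype.card_piFinset]
    have h5 : ∏ i : Fin k, (Bg.image fun e => e i).card ≤ ∏ _i : Fin k, 2 := by
      apply Finset.prod_le_prod'
      intro i _
      apply pair_two
      intro x hx y hy
      rw [Finset.mem_image] at hx hy
      obtain ⟨e, he, rfl⟩ := hx
      obtain ⟨e', he', rfl⟩ := hy
      rw [hBg, Finset.mem_filter] at he he'
      exact hbig e e' he.2 he'.2 i
    rw [Finset.prod_const, Finset.card_univ, Fintype.card_fin] at h5
    exact h5
  have a1 : ent Φ f ≤ ent Φ (fun x => (f x, χ x)) :=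
    h1.1 _ _ _ Φ f (fun x => (f x, χ x)) (fun x _ y _ h => (Prod.mk.inj h).1)
  have a2 : ent Φ χ ≤ Real.log 2 := by
    have := h2.2.2 _ _ Φ χ Finset.univ (fun x _ => Finset.mem_univ _)
    simpa using this
  have a3 : cent Φ f χ = ∑ b ∈ (Finset.univ : Finset Bool), ((fib Φ χ b).card : ℝ) / (Φ.card : ℝ) *
      ent (fib Φ χ b) f := h3 _ _ _ Φ f χ Finset.univ (fun x _ => Finset.mem_univ _)
  have a4 : ent (fib Φ χ true) f ≤ k * Real.log 2 := by
    have := h2.2.2 _ _ (fib Φ χ true) f Bg (by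
      intro x hx
      rw [pair_mem_fib] at hx
      rw [hBg, Finset.mem_filter]
      refine ⟨hF x hx.1, ?_⟩
      exact of_decide_eq_true hx.2)
    refine this.trans ((pair_log_mono hBgcard).trans ?_)
    rw [Nat.cast_pow, Real.log_pow, Nat.cast_ofNat]
  have a5 : ent (fib Φ χ false) f ≤ Real.log N := by
    have := h2.2.2 _ _ (fib Φ χ false) f F (by
      intro x hx
      rw [pair_mem_fib] at hx
      exact hF x hx.1)
    exact this.trans (pair_log_mono hN)
  have a6 : ((fib Φ χ true).card : ℝ) / (Φ.card : ℝ) ≤ 1 := by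
    rw [div_le_one hM]
    exact_mod_cast Finset.card_le_card (pair_fib_sub Φ χ true)
  have a7 : ((fib Φ χ false).card : ℝ) / (Φ.card : ℝ) ≤ N * τ := by
    rw [div_le_iff₀ hM]
    have b1 : (fib Φ χ false).card ≤
        ∑ e ∈ F.filter (fun e => ¬ τ * Φ.card ≤ (fib Φ f e).card), (fib Φ f e).card := by
      have b2 : fib Φ χ false ⊆
          (F.filter (fun e => ¬ τ * Φ.card ≤ (fib Φ f e).card)).biUnion fun e => fib Φ f e := by
        intro x hx
        rw [pair_mem_fib] at hx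
        rw [Finset.mem_biUnion]
        refine ⟨f x, ?_, ?_⟩
        · rw [Finset.mem_filter]
          exact ⟨hF x hx.1, of_decide_eq_false hx.2⟩
        · rw [pair_mem_fib]
          exact ⟨hx.1, rfl⟩
      exact (Finset.card_le_card b2).trans Finset.card_biUnion_le
    have b3 : ((∑ e ∈ F.filter (fun e => ¬ τ * Φ.card ≤ (fib Φ f e).card), (fib Φ f e).card : ℕ) : ℝ)
        ≤ ∑ e ∈ F.filter (fun e => ¬ τ * Φ.card ≤ (fib Φ f e).card), τ * Φ.card := by
      push_cast
      apply Finset.sum_le_sum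
      intro e he
      rw [Finset.mem_filter] at he
      exact (not_le.1 he.2).le
    rw [Finset.sum_const, nsmul_eq_mul] at b3
    have b4 : ((F.filter (fun e => ¬ τ * Φ.card ≤ (fib Φ f e).card)).card : ℝ) ≤ N := by
      exact_mod_cast (Finset.card_le_card (Finset.filter_subset _ _)).trans hN
    calc ((fib Φ χ false).card : ℝ) ≤ _ := by exact_mod_cast b1
      _ ≤ _ := b3
      _ ≤ N * (τ * Φ.card) := mul_le_mul_of_nonneg_right b4 (by positivity)
      _ = N * τ * Φ.card := by ring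
  have a8 : N * τ * Real.log N ≤ 1 := by
    rw [hτ]
    have : (N : ℝ) * (1 / (N * (Real.log N + 1))) * Real.log N = Real.log N / (Real.log N + 1) := by
      field_simp
    rw [this, div_le_one (by positivity)]
    linarith
  have a9 : cent Φ f χ = ent Φ (fun x => (f x, χ x)) - ent Φ χ := rfl
  have e1 : 0 ≤ ent (fib Φ χ true) f := h1.2.2.1 _ _ _ _
  have e2 : 0 ≤ ent (fib Φ χ false) f := h1.2.2.1 _ _ _ _
  rw [Fintype.sum_bool] at a3
  have c1 : ((fib Φ χ true).card : ℝ) / (Φ.card : ℝ) * ent (fib Φ χ true) f ≤ k * Real.log 2 := by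
    refine (mul_le_mul a6 a4 e1 zero_le_one).trans ?_
    rw [one_mul]
  have c2 : ((fib Φ χ false).card : ℝ) / (Φ.card : ℝ) * ent (fib Φ χ false) f ≤ 1 :=
    (mul_le_mul a7 a5 e2 (by positivity)).trans a8
  have : (k + 1 : ℝ) * Real.log 2 = k * Real.log 2 + Real.log 2 := by ring
  linarith

theorem st_PAIR (h1 : ST_E1) (h2 : ST_E2) (h3 : ST_E3) (h7 : ST_E7) : ST_PAIR := by
  classical
  intro B k w h0 η3 hB hη3 hh0
  have hlog2 : 0 < Real.log 2 := Real.log_pos one_lt_two
  have hh0pos : 0 < h0 := by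
    have : (0 : ℝ) ≤ (k + 1) * Real.log 2 := by positivity
    linarith
  set N : ℕ := B ^ (k * w) with hNdef
  have hN1 : 1 ≤ N := Nat.one_le_pow _ _ (by omega)
  have hNpos : (0 : ℝ) < N := by exact_mod_cast hN1
  have hlogN : 0 ≤ Real.log N := Real.log_natCast_nonneg N
  set τ : ℝ := 1 / (N * (Real.log N + 1)) with hτ
  have hτpos : 0 < τ := by
    rw [hτ]
    positivity
  set η2 : ℝ := τ * η3 ^ 2 / 8 with hη2
  have hη2pos : 0 < η2 := by positivity
  obtain ⟨Λ, hΛ⟩ : ∃ Λ : ℝ, Λ = Real.log N + 1 := ⟨_, rfl⟩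
  have hΛpos : 0 < Λ := by
    rw [hΛ]
    positivity
  refine ⟨η2 * h0 / (4 * Λ), by positivity, ?_⟩
  intro Ω Ω' S S2 T V s hS hS2 hent hcent
  set f : Ω → Fin k → ℤ := fun x => cl B s (T x) with hf
  set g : Ω → Fin k → ℤ := fun x => cl B (s + w) (T x) with hg
  set W : Ω × Ω' → Fin k → ℤ := fun x => T x.1 + V x.2 with hW
  have hgf : ∀ x, g x = cl B w (f x) := fun x => pair_cl_cl B s w (T x)
  have hScard : (0 : ℝ) < S.card := by exact_mod_cast hS.card_pos
  have hS2card : (0 : ℝ) < S2.card := by exact_mod_cast hS2.card_pos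
  set C : Finset (Fin k → ℤ) := S.image g with hC
  have hgC : ∀ x ∈ S, g x ∈ C := fun x hx => Finset.mem_image_of_mem g hx
  -- the three decompositions
  have d0 : h0 ≤ ∑ c ∈ C, ((fib S g c).card : ℝ) / (S.card : ℝ) * ent (fib S g c) f := by
    rw [← h3 _ _ _ S f g C hgC]
    have b1 : ent S f ≤ ent S (fun x => (f x, g x)) :=
      h1.1 _ _ _ S f (fun x => (f x, g x)) (fun x _ y _ h => (Prod.mk.inj h).1)
    have b2 : cent S f g = ent S (fun x => (f x, g x)) - ent S g := rfl
    rw [b2]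
    linarith
  have hratio : ∀ c, ((fib (S ×ˢ S2) (fun x => g x.1) c).card : ℝ) / ((S ×ˢ S2).card : ℝ) =
      ((fib S g c).card : ℝ) / (S.card : ℝ) := by
    intro c
    rw [pair_fib_prod, Finset.card_product, Finset.card_product]
    push_cast
    rw [mul_div_mul_right _ _ hS2card.ne']
  have hdec : ∀ (α : Type) (u : Ω × Ω' → α), cent (S ×ˢ S2) u (fun x => g x.1) =
      ∑ c ∈ C, ((fib S g c).card : ℝ) / (S.card : ℝ) * ent ((fib S g c) ×ˢ S2) u := by
    intro α u
    rw [h3 _ _ _ (S ×ˢ S2) u (fun x => g x.1) C (fun x hx => hgC x.1 (Finset.mem_product.1 hx).1)]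
    apply Finset.sum_congr rfl
    intro c _
    rw [hratio c, pair_fib_prod]
  have d1 : ∑ c ∈ C, ((fib S g c).card : ℝ) / (S.card : ℝ) *
      (ent ((fib S g c) ×ˢ S2) W - cent ((fib S g c) ×ˢ S2) W (fun x => f x.1)) ≤
      η2 * h0 / (4 * Λ) := by
    have b1 := hdec _ W
    have b2 := hdec _ (fun x => (W x, f x.1))
    have b3 := hdec _ (fun x : Ω × Ω' => f x.1)
    have b4 : ent (S ×ˢ S2) (fun x => (W x, f x.1)) ≤
        ent (S ×ˢ S2) (fun x => ((W x, f x.1), g x.1)) :=
      h1.1 _ _ _ _ _ _ (fun x _ y _ h => (Prod.mk.inj h).1)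
    have b5 : ent (S ×ˢ S2) (fun x : Ω × Ω' => (f x.1, g x.1)) ≤
        ent (S ×ˢ S2) (fun x : Ω × Ω' => f x.1) := by
      apply h1.1
      intro x _ y _ h
      have h' : f x.1 = f y.1 := h
      show (f x.1, g x.1) = (f y.1, g y.1)
      rw [hgf, hgf, h']
    have b6 : ∀ c, ((fib S g c).card : ℝ) / (S.card : ℝ) *
        (ent ((fib S g c) ×ˢ S2) W - cent ((fib S g c) ×ˢ S2) W (fun x => f x.1)) =
        ((fib S g c).card : ℝ) / (S.card : ℝ) * ent ((fib S g c) ×ˢ S2) W -
        ((fib S g c).card : ℝ) / (S.card : ℝ) * ent ((fib S g c) ×ˢ S2) (fun x => (W x, f x.1)) +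
        ((fib S g c).card : ℝ) / (S.card : ℝ) * ent ((fib S g c) ×ˢ S2) (fun x => f x.1) := by
      intro c
      unfold cent
      ring
    rw [Finset.sum_congr rfl (fun c _ => b6 c), Finset.sum_add_distrib, Finset.sum_sub_distrib,
      ← b1, ← b2, ← b3]
    refine le_trans ?_ hcent
    unfold cent
    linarith
  -- entropy of the fibres
  have hval : ∀ c, ∀ x ∈ fib S g c, f x ∈ pairBox B w c := by
    intro c x hx
    rw [pair_mem_fib] at hx
    apply pair_box_mem hB
    rw [← hgf]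
    exact hx.2
  have hHle : ∀ c, ent (fib S g c) f ≤ Λ := by
    intro c
    have := h2.2.2 _ _ (fib S g c) f (pairBox B w c) (hval c)
    rw [pair_box_card] at this
    rw [hΛ]
    linarith
  have hInn : ∀ c, 0 ≤ ent ((fib S g c) ×ˢ S2) W - cent ((fib S g c) ×ˢ S2) W (fun x => f x.1) := by
    intro c
    have := h1.2.2.2 _ _ _ ((fib S g c) ×ˢ S2) W (fun x => f x.1)
    unfold cent
    linarith
  have hpsum : ∑ c ∈ C, ((fib S g c).card : ℝ) / (S.card : ℝ) = 1 := by
    rw [← Finset.sum_div, div_eq_one_iff_eq hScard.ne']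
    exact (pair_card_sum S g).symm
  -- selection of the cell
  obtain ⟨c, hcC, hcH, hcI⟩ : ∃ c ∈ C, h0 / 2 ≤ ent (fib S g c) f ∧
      ent ((fib S g c) ×ˢ S2) W - cent ((fib S g c) ×ˢ S2) W (fun x => f x.1) ≤ η2 := by
    by_contra hcon
    have hall : ∀ c ∈ C, ent (fib S g c) f ≤ h0 / 2 + Λ / η2 *
        (ent ((fib S g c) ×ˢ S2) W - cent ((fib S g c) ×ˢ S2) W (fun x => f x.1)) := by
      intro c hc
      by_cases hH : h0 / 2 ≤ ent (fib S g c) f
      · have hI : η2 < ent ((fib S g c) ×ˢ S2) W - cent ((fib S g c) ×ˢ S2) W (fun x => f x.1) := by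
          by_contra hle
          exact hcon ⟨c, hc, hH, not_lt.1 hle⟩
        have b1 : Λ = Λ / η2 * η2 := by
          field_simp
        have b2 : Λ / η2 * η2 ≤ Λ / η2 *
            (ent ((fib S g c) ×ˢ S2) W - cent ((fib S g c) ×ˢ S2) W (fun x => f x.1)) :=
          mul_le_mul_of_nonneg_left hI.le (by positivity)
        have b3 := hHle c
        linarith
      · have b1 := hInn c
        have b2 : 0 ≤ Λ / η2 *
            (ent ((fib S g c) ×ˢ S2) W - cent ((fib S g c) ×ˢ S2) W (fun x => f x.1)) := by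
          positivity
        linarith [not_le.1 hH]
    have hsum : ∑ c ∈ C, ((fib S g c).card : ℝ) / (S.card : ℝ) * ent (fib S g c) f ≤
        h0 / 2 + Λ / η2 * (η2 * h0 / (4 * Λ)) := by
      calc ∑ c ∈ C, ((fib S g c).card : ℝ) / (S.card : ℝ) * ent (fib S g c) f
          ≤ ∑ c ∈ C, ((fib S g c).card : ℝ) / (S.card : ℝ) * (h0 / 2 + Λ / η2 *
            (ent ((fib S g c) ×ˢ S2) W - cent ((fib S g c) ×ˢ S2) W (fun x => f x.1))) := by
            apply Finset.sum_le_sum
            intro c hc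
            exact mul_le_mul_of_nonneg_left (hall c hc) (by positivity)
        _ = (∑ c ∈ C, ((fib S g c).card : ℝ) / (S.card : ℝ)) * (h0 / 2) + Λ / η2 *
            (∑ c ∈ C, ((fib S g c).card : ℝ) / (S.card : ℝ) *
            (ent ((fib S g c) ×ˢ S2) W - cent ((fib S g c) ×ˢ S2) W (fun x => f x.1))) := by
            rw [Finset.sum_mul, Finset.mul_sum, ← Finset.sum_add_distrib]
            apply Finset.sum_congr rfl
            intro c _
            ring
        _ ≤ h0 / 2 + Λ / η2 * (η2 * h0 / (4 * Λ)) := by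
            rw [hpsum, one_mul]
            have := mul_le_mul_of_nonneg_left d1 (by positivity : 0 ≤ Λ / η2)
            linarith
    have hval2 : Λ / η2 * (η2 * h0 / (4 * Λ)) = h0 / 4 := by
      field_simp
    rw [hval2] at hsum
    linarith
  have hΦ : (fib S g c).Nonempty := by
    rw [hC, Finset.mem_image] at hcC
    obtain ⟨x, hx, hxc⟩ := hcC
    refine ⟨x, ?_⟩
    rw [pair_mem_fib]
    exact ⟨hx, hxc⟩
  have hΦcard : (0 : ℝ) < (fib S g c).card := by exact_mod_cast hΦ.card_pos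
  -- two big separated values
  obtain ⟨e, e', hbe, hbe', i, hi⟩ : ∃ e e' : Fin k → ℤ,
      τ * (fib S g c).card ≤ (fib (fib S g c) f e).card ∧
      τ * (fib S g c).card ≤ (fib (fib S g c) f e').card ∧ ∃ i, 2 ≤ |e i - e' i| := by
    by_contra hcon
    have hle : ent (fib S g c) f ≤ (k + 1) * Real.log 2 + 1 := by
      refine pair_small h1 h2 h3 (fib S g c) f (pairBox B w c) N (by rw [pair_box_card]) hN1
        (hval c) hΦ τ hτ ?_
      intro e e' he he' i hi
      exact hcon ⟨e, e', he, he', i, hi⟩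
    linarith
  have hsub : ∀ e : Fin k → ℤ, τ * (fib S g c).card ≤ (fib (fib S g c) f e).card →
      (fib (fib S g c) f e = fib S f e ∧ (fib S f e).Nonempty ∧ cl B w e = c) := by
    intro e he
    have hpos : (0 : ℝ) < (fib (fib S g c) f e).card := lt_of_lt_of_le (by positivity) he
    have hpos' : 0 < (fib (fib S g c) f e).card := by exact_mod_cast hpos
    obtain ⟨x, hx⟩ := Finset.card_pos.1 hpos'
    rw [pair_mem_fib, pair_mem_fib] at hx
    have hce : cl B w e = c := by
      rw [← hx.2, ← hgf]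
      exact hx.1.2
    refine ⟨?_, ⟨x, ?_⟩, hce⟩
    · ext y
      rw [pair_mem_fib, pair_mem_fib, pair_mem_fib]
      constructor
      · rintro ⟨⟨a1, a2⟩, a3⟩
        exact ⟨a1, a3⟩
      · rintro ⟨a1, a3⟩
        refine ⟨⟨a1, ?_⟩, a3⟩
        rw [hgf, a3]
        exact hce
    · rw [pair_mem_fib]
      exact ⟨hx.1.1, hx.2⟩
  obtain ⟨s1, n1, c1⟩ := hsub e hbe
  obtain ⟨s2, n2, c2⟩ := hsub e' hbe'
  refine ⟨e, e', n1, n2, ?_, ⟨i, hi⟩, ?_⟩
  · intro j
    have : cl B w e j = cl B w e' j := by rw [c1, c2]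
    exact this
  · have hne : e ≠ e' := by
      intro h
      rw [h, sub_self, abs_zero] at hi
      omega
    have hS22 : (0 : ℝ) ≤ S2.card := hS2card.le
    have b1 : ∀ e, τ * (fib S g c).card ≤ (fib (fib S g c) f e).card →
        τ * ((fib S g c) ×ˢ S2).card ≤ (fib ((fib S g c) ×ˢ S2) (fun x => f x.1) e).card := by
      intro e he
      rw [pair_fib_prod, Finset.card_product, Finset.card_product]
      push_cast
      rw [← mul_assoc]
      exact mul_le_mul_of_nonneg_right he hS22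
    have b2 := h7 _ _ _ ((fib S g c) ×ˢ S2) W (fun x => f x.1) e e' τ hτpos (hΦ.product hS2)
      (b1 e hbe) (b1 e' hbe') hne
    rw [pair_fib_prod, pair_fib_prod, s1, s2] at b2
    have b3 : τ * (l1 (fib S f e ×ˢ S2) W (fib S f e' ×ˢ S2) W) ^ 2 ≤ τ * η3 ^ 2 := by
      refine b2.trans ?_
      have : 8 * η2 = τ * η3 ^ 2 := by
        rw [hη2]
        ring
      linarith
    have b4 := le_of_mul_le_mul_left b3 hτpos
    exact le_of_sq_le_sq b4 hη3.le

end Pool.Agent.Helper70.DK
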